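import Mathlib
import Pool.Agent.Lib.helper11.NullPlastic

open Set Cardinal MeasureTheory

namespace Pool.Agent.Results.MP_d907e7_lc.Subgroup

/-- every non-expansive bijection is an isometry -/
def IsPlastic (Z : Type) [MetricSpace Z] : Prop :=
  ∀ f : Z → Z, Function.Bijective f → (∀ x y, dist (f x) (f y) ≤ dist x y) →
    ∀ x y, dist (f x) (f y) = dist x y

/-- meets every nonempty open set in exactly aleph-one points -/
def A1Dense (X : Set ℝ) : Prop := ∀ U : Set ℝ, IsOpen U → U.Nonempty → #(X ∩ U : Set ℝ) = ℵ₁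

/-- dense set of conditions -/
def PDense {P : Type} [Preorder P] (D : Set P) : Prop := ∀ p, ∃ q ∈ D, q ≤ p

/-- countable chain condition -/
def IsCCC (P : Type) [Preorder P] : Prop :=
  ∀ A : Set P, A.Pairwise (fun p q => ¬ ∃ r, r ≤ p ∧ r ≤ q) → A.Countable

/-- properness: for club many countable M (sets of conditions and of subsets of P), every
condition in M has an (M, P)-generic extension -/
def IsProper (P : Type) [Preorder P] : Prop :=
  ∃ F : Finset (P ⊕ Set P) → Set (P ⊕ Set P), (∀ s, (F s).Countable) ∧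
    ∀ M : Set (P ⊕ Set P), M.Countable → (∀ s : Finset (P ⊕ Set P), ↑s ⊆ M → F s ⊆ M) →
      ∀ p, Sum.inl p ∈ M → ∃ q ≤ p, ∀ D, Sum.inr D ∈ M → PDense D →
        ∀ r ≤ q, ∃ d ∈ D, Sum.inl d ∈ M ∧ ∃ t, t ≤ r ∧ t ≤ d

/-- forcing axiom for aleph-one dense sets, for the class C of forcing notions -/
def FA (C : ∀ (P : Type) [Preorder P], Prop) : Prop :=
  ∀ (P : Type) [Preorder P] [Nonempty P], C P → ∀ 𝒟 : Set (Set P), #𝒟 ≤ ℵ₁ →
    (∀ D ∈ 𝒟, PDense D) → ∃ G : Set P, (∀ p ∈ G, ∀ q, p ≤ q → q ∈ G) ∧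
      (∀ p ∈ G, ∀ q ∈ G, ∃ r ∈ G, r ≤ p ∧ r ≤ q) ∧ ∀ D ∈ 𝒟, (G ∩ D).Nonempty

def RI := {p : ℚ × ℚ // p.1 < p.2}

instance : Preorder RI where
  le p q := q.1.1 ≤ p.1.1 ∧ p.1.2 ≤ q.1.2
  le_refl _ := ⟨le_rfl, le_rfl⟩
  le_trans _ _ _ h k := ⟨k.1.trans h.1, h.2.trans k.2⟩

instance : Nonempty RI := ⟨⟨(0, 1), zero_lt_one⟩⟩
instance : Countable RI := inferInstanceAs (Countable {p : ℚ × ℚ // p.1 < p.2})

lemma null_of_FA {C : ∀ (P : Type) [Preorder P], Prop} (hC : C RI) (h : FA C) {X : Set ℝ}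
    (hX : #X ≤ ℵ₁) (hne : X.Nonempty) : volume X = 0 := by
  have : ∀ n : ℕ, ∃ W ⊇ range ((↑) : ℚ → ℝ), IsOpen W ∧ volume W < (n : ENNReal)⁻¹ := fun n =>
    Set.exists_isOpen_lt_of_lt _ _ (by
      rw [(countable_range _).measure_zero]; simp)
  choose W hW1 hW2 hW3 using this
  let D : X × ℕ → Set RI := fun i => {p | ∀ r : ℝ, p.1.1 ≤ r → r ≤ p.1.2 → i.1 + r ∈ W i.2}
  obtain ⟨G, -, hG, hD⟩ := h RI hC (range D) (by
    refine mk_range_le.trans ?_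
    rw [mk_prod]
    simp only [lift_id, mk_nat]
    exact mul_le_of_le (aleph0_le_aleph 1) hX (aleph0_le_aleph 1)) (by
    rintro _ ⟨⟨x, n⟩, rfl⟩ p
    have hp : (x : ℝ) + p.1.1 < x + p.1.2 := by
      have : (p.1.1 : ℝ) < p.1.2 := by exact_mod_cast p.2
      linarith
    obtain ⟨q, q1, q2⟩ := exists_rat_btwn hp
    obtain ⟨a, b, ⟨a1, b1⟩, hab⟩ := mem_nhds_iff_exists_Ioo_subset.1
      ((hW2 n).mem_nhds (hW1 n ⟨q, rfl⟩))
    obtain ⟨u, u1, u2⟩ := exists_rat_btwn (show max (a - x) p.1.1 < q - x from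
      max_lt (by linarith) (by linarith))
    obtain ⟨v, v1, v2⟩ := exists_rat_btwn (show (q : ℝ) - x < min (b - x) p.1.2 from
      lt_min (by linarith) (by linarith))
    rw [max_lt_iff] at u1
    rw [lt_min_iff] at v2
    refine ⟨⟨(u, v), by exact_mod_cast u2.trans v1⟩, fun r r1 r2 => hab ⟨?_, ?_⟩, ?_, ?_⟩
    · simp only at r1 ⊢; linarith [u1.1]
    · simp only at r2 ⊢; linarith [v2.1]
    · exact_mod_cast u1.2.le
    · exact_mod_cast v2.2.le)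
  obtain ⟨x0, hx0⟩ := hne
  obtain ⟨p0, hp0, -⟩ := hD _ ⟨(⟨x0, hx0⟩, 0), rfl⟩
  have hab : ∀ p ∈ G, ∀ q ∈ G, (p.1.1 : ℝ) ≤ q.1.2 := fun p hp q hq => by
    obtain ⟨r, -, h1, h2⟩ := hG p hp q hq
    exact_mod_cast (h1.1.trans r.2.le).trans h2.2
  obtain ⟨r, hr⟩ := exists_between_of_forall_le (s := (fun p : RI => (p.1.1 : ℝ)) '' G)
    (t := (fun p : RI => (p.1.2 : ℝ)) '' G) ⟨_, p0, hp0, rfl⟩ ⟨_, p0, hp0, rfl⟩ (by
      rintro _ ⟨p, hp, rfl⟩ _ ⟨q, hq, rfl⟩; exact hab p hp q hq)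
  have : ∀ n : ℕ, volume X ≤ (n : ENNReal)⁻¹ := fun n => by
    refine le_trans ?_ (hW3 n).le
    rw [← measure_preimage_add_right volume r (W n)]
    refine measure_mono fun x hx => ?_
    obtain ⟨p, hp, h⟩ := hD _ ⟨(⟨x, hx⟩, n), rfl⟩
    exact h r (hr.1 ⟨p, hp, rfl⟩) (hr.2 ⟨p, hp, rfl⟩)
  exact le_antisymm (ge_of_tendsto' ENNReal.tendsto_inv_nat_nhds_zero this) zero_le

theorem result (h : FA IsProper ∨ FA IsCCC) (G : AddSubgroup ℝ) (hG : A1Dense G) :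
    ¬ IsPlastic G := by
  have hd : Dense (G : Set ℝ) := dense_iff_inter_open.2 fun U hU hn => by
    have := hG U hU hn
    rw [inter_comm, nonempty_iff_ne_empty]
    intro e
    rw [e, mk_emptyCollection] at this
    exact (aleph_pos 1).ne this
  have hc : #(G : Set ℝ) ≤ ℵ₁ := by
    have := hG univ isOpen_univ univ_nonempty
    rw [inter_univ] at this
    exact this.le
  have h0 : volume (G : Set ℝ) = 0 := by
    rcases h with h | h
    · refine null_of_FA ⟨fun _ => range Sum.inl, fun _ => countable_range _,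
        fun M _ hM p _ => ⟨p, le_rfl, fun D _ hD r _ => ?_⟩⟩ h hc ⟨0, G.zero_mem⟩
      obtain ⟨d, hd, hr⟩ := hD r
      exact ⟨d, hd, hM ∅ (by simp) ⟨d, rfl⟩, d, hr, le_rfl⟩
    · exact null_of_FA (fun A _ => A.to_countable) h hc ⟨0, G.zero_mem⟩
  obtain ⟨f, h1, h2, x, y, h3⟩ := Pool.Agent.Lib.helper11.NullPlastic.not_plastic G hd h0
  exact fun hp => h3 (hp f h1 h2 x y)

end Pool.Agent.Results.MP_d907e7_lc.Subgroup
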